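import Pool.Agent.Helper21.CU.St

/-!
# Module CL of project CU (MP_ad0dc2_nt)
-/

set_option autoImplicit false

namespace Pool.Agent.Helper82.CU

open Finset Pool.Agent.Helper21.CU

theorem card_R (k : ℤ) (p : ℕ) [Fact p.Prime] :
    (R k p).card = (Finset.univ.filter fun x : ZMod p => x ^ 3 = (k : ZMod p)).card := by
  classical
  refine Finset.card_bij' (fun v _ => (v : ZMod p)) (fun x _ => x.val) ?_ ?_ ?_ ?_
  · intro v hv
    unfold R at hv
    rw [Finset.mem_filter] at hv
    rw [Finset.mem_filter]
    refine ⟨Finset.mem_univ _, ?_⟩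
    have h := (ZMod.intCast_zmod_eq_zero_iff_dvd ((v : ℤ) ^ 3 - k) p).mpr hv.2
    push_cast at h
    exact sub_eq_zero.mp h
  · intro x hx
    rw [Finset.mem_filter] at hx
    unfold R
    rw [Finset.mem_filter, Finset.mem_range]
    refine ⟨ZMod.val_lt x, ?_⟩
    rw [← ZMod.intCast_zmod_eq_zero_iff_dvd]
    push_cast
    rw [ZMod.natCast_zmod_val, hx.2, sub_self]
  · intro v hv
    unfold R at hv
    rw [Finset.mem_filter, Finset.mem_range] at hv
    exact ZMod.val_cast_of_lt hv.1
  · intro x _
    exact ZMod.natCast_zmod_val x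

theorem hCL : StCL := by
  intro k p hp hpk
  have : Fact p.Prime := ⟨hp⟩
  have hk0 : (k : ZMod p) ≠ 0 := by
    intro h
    apply hpk
    have := (ZMod.intCast_zmod_eq_zero_iff_dvd k p).mp h
    exact Dvd.dvd.mul_left this 3
  rw [card_R]
  have hcard : Fintype.card (ZMod p)ˣ = p - 1 := ZMod.card_units p
  have hp1 : 1 < p := hp.one_lt
  constructor
  · intro h2
    -- cubing is injective
    have hinj : Function.Injective (fun x : ZMod p => x ^ 3) := by
      intro x y hxy
      have hxy' : x ^ 3 = y ^ 3 := hxy
      by_cases hy : y = 0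
      · subst hy
        rw [zero_pow (by norm_num)] at hxy'
        exact pow_eq_zero_iff (by norm_num) |>.mp hxy'
      · have hx : x ≠ 0 := by
          rintro rfl
          rw [zero_pow (by norm_num)] at hxy'
          exact hy (pow_eq_zero_iff (by norm_num) |>.mp hxy'.symm)
        obtain ⟨u, hu⟩ : ∃ u : (ZMod p)ˣ, u = Units.mk0 x hx * (Units.mk0 y hy)⁻¹ := ⟨_, rfl⟩
        have hu3 : u ^ 3 = 1 := by
          rw [hu, mul_pow, inv_pow, mul_inv_eq_one]
          ext
          simpa using hxy'
        have h3 : orderOf u ∣ 3 := orderOf_dvd_of_pow_eq_one hu3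
        have h4 : orderOf u ∣ p - 1 := by rw [← hcard]; exact orderOf_dvd_card
        have h5 : Nat.Coprime 3 (p - 1) := by
          rw [Nat.Prime.coprime_iff_not_dvd Nat.prime_three]
          omega
        have h6 : orderOf u = 1 := Nat.dvd_one.mp (by
          have := Nat.dvd_gcd h3 h4
          rwa [h5] at this)
        have h7 : u = 1 := orderOf_eq_one_iff.mp h6
        rw [hu, mul_inv_eq_one] at h7
        have := congrArg Units.val h7
        simpa using this
    have hsurj := Finite.surjective_of_injective hinj
    obtain ⟨x, hx⟩ := hsurj (k : ZMod p)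
    have hx' : x ^ 3 = (k : ZMod p) := hx
    rw [Finset.card_eq_one]
    refine ⟨x, ?_⟩
    ext y
    rw [Finset.mem_filter, Finset.mem_singleton]
    constructor
    · rintro ⟨_, hy⟩
      exact hinj (by show y ^ 3 = x ^ 3; rw [hy, hx'])
    · rintro rfl
      exact ⟨Finset.mem_univ _, hx'⟩
  · intro h1
    by_cases hex : ∃ x : ZMod p, x ^ 3 = (k : ZMod p)
    · right
      obtain ⟨x, hx⟩ := hex
      have hx0 : x ≠ 0 := by
        rintro rfl
        rw [zero_pow (by norm_num)] at hx
        exact hk0 hx.symm
      have hd : 3 ∣ Fintype.card (ZMod p)ˣ := by rw [hcard]; omega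
      have : Fact (Nat.Prime 3) := ⟨Nat.prime_three⟩
      obtain ⟨w, hw⟩ := exists_prime_orderOf_dvd_card 3 hd
      have hw3 : w ^ 3 = 1 := by rw [← hw]; exact pow_orderOf_eq_one w
      have hw1 : w ≠ 1 := by
        rintro rfl
        rw [orderOf_one] at hw
        omega
      obtain ⟨t, ht⟩ : ∃ t : ZMod p, t = (w : ZMod p) := ⟨_, rfl⟩
      have ht3 : t ^ 3 = 1 := by
        rw [ht]
        have := congrArg Units.val hw3
        simpa using this
      have ht1 : t ≠ 1 := by
        intro h
        apply hw1
        ext
        rw [← ht, h]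
        rfl
      have ht0 : t ≠ 0 := by
        intro h
        rw [h] at ht3
        simp at ht3
      have hq : t ^ 2 + t + 1 = 0 := by
        have : (t - 1) * (t ^ 2 + t + 1) = 0 := by linear_combination ht3
        rcases mul_eq_zero.mp this with h | h
        · exact absurd (sub_eq_zero.mp h) ht1
        · exact h
      have ht2 : t ^ 2 ≠ 1 := by
        intro h
        apply ht1
        have : t ^ 3 = t := by rw [pow_succ, h, one_mul]
        rw [← this, ht3]
      have hset : (Finset.univ.filter fun y : ZMod p => y ^ 3 = (k : ZMod p)) =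
          {x, t * x, t ^ 2 * x} := by
        ext y
        rw [Finset.mem_filter]
        simp only [Finset.mem_insert, Finset.mem_singleton]
        constructor
        · rintro ⟨_, hy⟩
          have h : (y - x) * ((y - t * x) * (y - t ^ 2 * x)) = 0 := by
            linear_combination hy - hx + (y ^ 2 * x * (-1) + x ^ 2 * y * t) * hq - (x^3) * ht3
          rcases mul_eq_zero.mp h with h | h
          · left; exact sub_eq_zero.mp h
          · rcases mul_eq_zero.mp h with h | h
            · right; left; exact sub_eq_zero.mp h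
            · right; right; exact sub_eq_zero.mp h
        · rintro (rfl | rfl | rfl)
          · exact ⟨Finset.mem_univ _, hx⟩
          · exact ⟨Finset.mem_univ _, by rw [mul_pow, ht3, one_mul, hx]⟩
          · refine ⟨Finset.mem_univ _, ?_⟩
            rw [mul_pow, ← pow_mul, mul_comm 2 3, pow_mul, ht3, one_pow, one_mul, hx]
      rw [hset, Finset.card_eq_three]
      refine ⟨x, t * x, t ^ 2 * x, ?_, ?_, ?_, rfl⟩
      · intro h
        apply ht1
        exact (mul_right_cancel₀ hx0 (by rw [one_mul]; exact h)).symm
      · intro h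
        apply ht2
        exact (mul_right_cancel₀ hx0 (by rw [one_mul]; exact h)).symm
      · intro h
        have h' := mul_right_cancel₀ hx0 h
        apply ht1
        have : t * 1 = t * t := by rw [mul_one, ← sq]; exact h'
        exact (mul_left_cancel₀ ht0 this).symm
    · left
      rw [Finset.card_eq_zero, Finset.filter_eq_empty_iff]
      intro x _ hx
      exact hex ⟨x, hx⟩

end Pool.Agent.Helper82.CU
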