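import Pool.Agent.Helper21.CU.St

/-!
# Module OM of project CU (MP_ad0dc2_nt)
-/

set_option autoImplicit false

namespace Pool.Agent.Helper82.CU

open Finset Pool.Agent.Helper21.CU

theorem hOM (h1 : StCRT) (h2 : StPP) : StOM := by
  intro k hk
  obtain ⟨K₀, hK₀⟩ : ∃ K₀ : ℕ, K₀ = (3 * k.natAbs) ^ 3 := ⟨_, rfl⟩
  have hkn : 1 ≤ k.natAbs := by
    have := Int.natAbs_pos.mpr hk
    omega
  have hK1 : 1 ≤ K₀ := by
    rw [hK₀]
    exact Nat.one_le_pow _ _ (by omega)
  obtain ⟨B, hB⟩ : ∃ B : Finset ℕ, B = (3 * k.natAbs).primeFactors := ⟨_, rfl⟩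
  have hdvd : ∀ p : ℕ, p.Prime → ((p : ℤ) ∣ 3 * k ↔ p ∈ B) := by
    intro p hp
    rw [hB, Nat.mem_primeFactors]
    have e : (3 * k).natAbs = 3 * k.natAbs := by
      rw [Int.natAbs_mul]; rfl
    constructor
    · intro h
      refine ⟨hp, ?_, by omega⟩
      rw [← e]
      exact Int.natCast_dvd.mp h
    · intro h
      rw [Int.natCast_dvd, e]
      exact h.2.1
  have key : ∀ s : ℕ, 1 ≤ s →
      (R k s).card ≤ 3 ^ s.primeFactors.card * K₀ ^ (s.primeFactors ∩ B).card := by
    intro s
    induction s using Nat.recOnPosPrimePosCoprime with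
    | prime_pow p n hp hn =>
      intro _
      have hpf : (p ^ n).primeFactors = {p} := Nat.primeFactors_prime_pow hn.ne' hp
      rw [hpf, Finset.card_singleton]
      obtain ⟨ha, hb⟩ := h2 k hk p n hp hn
      by_cases hpk : (p : ℤ) ∣ 3 * k
      · have hpB := (hdvd p hp).mp hpk
        have e1 : ({p} ∩ B : Finset ℕ) = {p} :=
          Finset.inter_eq_left.mpr (Finset.singleton_subset_iff.mpr hpB)
        rw [e1, Finset.card_singleton, pow_one, pow_one]
        have := hb hpk
        rw [← hK₀] at this
        omega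
      · have h3 := ha hpk
        have e1 : ({p} ∩ B : Finset ℕ) = ∅ := by
          rw [Finset.singleton_inter_of_notMem]
          intro h
          exact hpk ((hdvd p hp).mpr h)
        rw [e1, Finset.card_empty, pow_zero, pow_one]
        omega
    | zero => intro h; omega
    | one =>
      intro _
      have : (R k 1).card ≤ 1 := by
        unfold R
        refine (Finset.card_filter_le _ _).trans ?_
        simp
      simpa using this
    | coprime a b ha hb hab iha ihb =>
      intro _
      have ha1 : 1 ≤ a := by omega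
      have hb1 : 1 ≤ b := by omega
      rw [(h1 k a b ha1 hb1 hab).1]
      have hdis : Disjoint a.primeFactors b.primeFactors := hab.disjoint_primeFactors
      rw [hab.primeFactors_mul, Finset.card_union_of_disjoint hdis, Finset.union_inter_distrib_right,
        Finset.card_union_of_disjoint
          (hdis.mono Finset.inter_subset_left Finset.inter_subset_left)]
      calc (R k a).card * (R k b).card
          ≤ (3 ^ a.primeFactors.card * K₀ ^ (a.primeFactors ∩ B).card) *
            (3 ^ b.primeFactors.card * K₀ ^ (b.primeFactors ∩ B).card) :=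
            Nat.mul_le_mul (iha ha1) (ihb hb1)
        _ = _ := by rw [pow_add, pow_add]; ring
  refine ⟨K₀ ^ B.card, Nat.one_le_pow _ _ (by omega), fun s hs => ?_⟩
  calc (R k s).card ≤ 3 ^ s.primeFactors.card * K₀ ^ (s.primeFactors ∩ B).card := key s hs
    _ ≤ 3 ^ s.primeFactors.card * K₀ ^ B.card := by
      apply Nat.mul_le_mul_left
      exact Nat.pow_le_pow_right hK1 (Finset.card_le_card Finset.inter_subset_right)
    _ = _ := by ring

end Pool.Agent.Helper82.CU
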